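import Pool.Agent.helper24.BP.Model

/-!
# Module M6: counting inputs with prescribed incidences
-/

namespace Pool.Agent.helper80.BP

open Finset Classical
open Pool.Agent.helper24.BP

noncomputable section

/-- the lines through a point: there are `q` of them -/
theorem card_lines_through {q : ℕ} [Fact q.Prime] (w : Pt q) :
    ((univ : Finset (Pt q)).filter fun u => inc u w).card = q := by
  have h : ((univ : Finset (Pt q)).filter fun u => inc u w) =
      (univ : Finset (ZMod q)).image fun a => (a, w.2 - a * w.1) := by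
    ext u
    rw [mem_filter, mem_image]
    constructor
    · rintro ⟨-, h⟩
      unfold inc at h
      exact ⟨u.1, mem_univ _, Prod.ext rfl (by rw [h]; ring)⟩
    · rintro ⟨a, -, rfl⟩
      refine ⟨mem_univ _, ?_⟩
      unfold inc
      ring
  rw [h, card_image_of_injective, card_univ, ZMod.card]
  intro a a' haa
  exact (Prod.ext_iff.mp haa).1

/-- the lines satisfying the constraints `P` -/
def cons {N q : ℕ} (y : Asg N q) (P : Finset (Pair N)) [Fact q.Prime] : Finset (Pt q) :=
  (univ : Finset (Pt q)).filter fun u => ∀ p ∈ P, inc u (y p.2)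

theorem card_pt {q : ℕ} [Fact q.Prime] : (univ : Finset (Pt q)).card = q ^ 2 := by
  rw [card_univ, Fintype.card_prod, ZMod.card, sq]

theorem cons_card_one {N q : ℕ} [Fact q.Prime] (y : Asg N q) (P : Finset (Pair N))
    (hP : P.card ≤ 1) : (cons y P).card * q ^ P.card = q ^ 2 := by
  rcases Nat.eq_zero_or_pos P.card with h0 | h0
  · rw [card_eq_zero] at h0
    subst h0
    unfold cons
    simp only [notMem_empty, false_imp_iff, implies_true, filter_true, card_empty, pow_zero,
      mul_one]
    exact card_pt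
  · obtain ⟨p, rfl⟩ := card_eq_one.mp (show P.card = 1 by omega)
    have : cons y {p} = (univ : Finset (Pt q)).filter fun u => inc u (y p.2) := by
      unfold cons
      ext u
      simp
    rw [this, card_lines_through, card_singleton]
    ring

theorem cons_card_two {N q : ℕ} [Fact q.Prime] (y : Asg N q) (P : Finset (Pair N))
    (hP : P.card ≤ 2) (hy : Gen y) (hinj : ∀ p ∈ P, ∀ p' ∈ P, p.2 = p'.2 → p = p') :
    (cons y P).card * q ^ P.card ≤ q ^ 2 := by
  rcases Nat.lt_or_ge 1 P.card with h0 | h0
  · have h2 : P.card = 2 := by omega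
    rw [h2]
    obtain ⟨p, p', hpp, rfl⟩ := card_eq_two.mp h2
    have h1 : (cons y {p, p'}).card ≤ 1 := by
      rw [card_le_one]
      intro u hu u' hu'
      unfold cons at hu hu'
      simp only [mem_filter, mem_univ, true_and, mem_insert, mem_singleton, forall_eq_or_imp,
        forall_eq, inc] at hu hu'
      have hne : (y p.2).1 ≠ (y p'.2).1 := by
        intro h
        exact hpp (hinj p (by simp) p' (by simp) (hy _ _ h))
      have h3 : (u.1 - u'.1) * ((y p.2).1 - (y p'.2).1) = 0 := by
        linear_combination hu'.1 - hu.1 - hu'.2 + hu.2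
      have h4 : u.1 = u'.1 := by
        rcases mul_eq_zero.mp h3 with h | h
        · exact sub_eq_zero.mp h
        · exact absurd (sub_eq_zero.mp h) hne
      have h5 : u.2 = u'.2 := by
        have e1 := hu.1
        have e2 := hu'.1
        rw [h4] at e1
        linear_combination e2 - e1
      exact Prod.ext h4 h5
    calc (cons y {p, p'}).card * q ^ 2 ≤ 1 * q ^ 2 := Nat.mul_le_mul_right _ h1
      _ = q ^ 2 := one_mul _
  · exact le_of_eq (cons_card_one y P h0)

/-- the row `i` of `R` -/
def row {N : ℕ} (R : Finset (Pair N)) (i : Fin N) : Finset (Pair N) := R.filter fun p => p.1 = i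

theorem row_sum {N : ℕ} (R : Finset (Pair N)) : ∑ i, (row R i).card = R.card := by
  unfold row
  exact (card_eq_sum_card_fiberwise (s := R) (t := univ) (f := Prod.fst)
    (fun _ _ => mem_coe.mpr (mem_univ _))).symm

theorem x_set {N q : ℕ} [Fact q.Prime] (y : Asg N q) (R : Finset (Pair N)) :
    ((univ : Finset (Asg N q)).filter fun x => IncT R (x, y)) =
      Fintype.piFinset fun i => cons y (row R i) := by
  ext x
  rw [mem_filter, Fintype.mem_piFinset]
  simp only [cons, row, mem_filter, mem_univ, true_and]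
  constructor
  · rintro h i p ⟨hp, rfl⟩
    exact h p hp
  · intro h p hp
    exact h p.1 p ⟨hp, rfl⟩

theorem x_card {N q : ℕ} [Fact q.Prime] (y : Asg N q) (R : Finset (Pair N)) :
    ((univ : Finset (Asg N q)).filter fun x => IncT R (x, y)).card * q ^ R.card =
      ∏ i, ((cons y (row R i)).card * q ^ (row R i).card) := by
  rw [x_set, Fintype.card_piFinset, prod_mul_distrib, prod_pow_eq_pow_sum, row_sum]

theorem x_card_le {N q : ℕ} [Fact q.Prime] (y : Asg N q) (R : Finset (Pair N))
    (h : ∀ i, (cons y (row R i)).card * q ^ (row R i).card ≤ q ^ 2) :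
    ((univ : Finset (Asg N q)).filter fun x => IncT R (x, y)).card * q ^ R.card ≤
      q ^ (2 * N) := by
  rw [x_card]
  refine le_trans (prod_le_prod' fun i _ => h i) ?_
  rw [prod_const, card_univ, Fintype.card_fin, ← pow_mul]

theorem z_card {N q : ℕ} [Fact q.Prime] (p : Inp N q → Prop) [DecidablePred p] :
    ((univ : Finset (Inp N q)).filter p).card =
      ∑ y : Asg N q, ((univ : Finset (Asg N q)).filter fun x => p (x, y)).card := by
  simp only [card_filter]
  rw [Fintype.sum_prod_type_right]

theorem card_asg {N q : ℕ} [Fact q.Prime] : (univ : Finset (Asg N q)).card = q ^ (2 * N) := by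
  rw [card_univ, Fintype.card_fun, Fintype.card_prod, ZMod.card, Fintype.card_fin, ← sq, ← pow_mul]

theorem row_matching {N s : ℕ} {T : Finset (Pair N)}
    (hT : T ∈ Mt (univ : Finset (Fin N)) univ s) (i : Fin N) : (row T i).card ≤ 1 := by
  unfold Mt at hT
  rw [mem_filter] at hT
  rw [card_le_one]
  intro p hp p' hp'
  unfold row at hp hp'
  rw [mem_filter] at hp hp'
  exact hT.2.1 p hp.1 p' hp'.1 (by rw [hp.2, hp'.2])

theorem Mt_card' {N : ℕ} {X Y : Finset (Fin N)} {s : ℕ} {T : Finset (Pair N)}
    (hT : T ∈ Mt X Y s) : T.card = s := by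
  unfold Mt at hT
  rw [mem_filter, mem_powersetCard] at hT
  exact hT.1.2

/-- **M6c** -/
theorem planted_upper {N q : ℕ} [Fact q.Prime] {s : ℕ} {T : Finset (Pair N)}
    (hT : T ∈ Mt (univ : Finset (Fin N)) univ s) :
    ((univ : Finset (Inp N q)).filter (IncT T)).card * q ^ s ≤ q ^ (4 * N) := by
  rw [z_card, sum_mul]
  have h1 : ∀ y ∈ (univ : Finset (Asg N q)),
      ((univ : Finset (Asg N q)).filter fun x => IncT T (x, y)).card * q ^ s ≤ q ^ (2 * N) := by
    intro y _
    rw [← Mt_card' hT]
    exact x_card_le y T fun i => le_of_eq (cons_card_one y _ (row_matching hT i))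
  refine le_trans (sum_le_sum h1) ?_
  rw [sum_const, card_asg, smul_eq_mul, ← pow_add]
  exact le_of_eq (by congr 1; ring)

/-- **M6d** -/
theorem Mt_card_pos {N t : ℕ} (h : t ≤ N) : 0 < (Mt (univ : Finset (Fin N)) univ t).card := by
  rw [card_pos]
  obtain ⟨J, -, hJ⟩ := exists_subset_card_eq (s := (univ : Finset (Fin N))) (n := t)
    (by rw [card_univ, Fintype.card_fin]; exact h)
  refine ⟨J.image fun i => (i, i), ?_⟩
  unfold Mt
  rw [mem_filter, mem_powersetCard]
  refine ⟨⟨fun p _ => by simp, ?_⟩, ?_, ?_⟩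
  · rw [card_image_of_injective, hJ]
    intro i i' hii
    exact (Prod.ext_iff.mp hii).1
  · intro p hp p' hp' h1
    simp only [mem_image] at hp hp'
    obtain ⟨i, -, rfl⟩ := hp
    obtain ⟨i', -, rfl⟩ := hp'
    have : i = i' := h1
    rw [this]
  · intro p hp p' hp' h1
    simp only [mem_image] at hp hp'
    obtain ⟨i, -, rfl⟩ := hp
    obtain ⟨i', -, rfl⟩ := hp'
    have : i = i' := h1
    rw [this]

/-- **M6e** -/
theorem yes_of_incT {N q t : ℕ} {T : Finset (Pair N)} (hT : T ∈ Mt (univ : Finset (Fin N)) univ t)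
    {z : Inp N q} (hz : IncT T z) : Yes t z := by
  unfold Yes
  have h1 : (T.image Prod.fst).card = t := by
    rw [← Mt_card' hT]
    apply card_image_of_injOn
    intro p hp p' hp' h
    unfold Mt at hT
    rw [mem_filter] at hT
    exact hT.2.1 p hp p' hp' h
  rw [← h1]
  apply card_le_card
  intro i hi
  rw [mem_image] at hi
  obtain ⟨p, hp, rfl⟩ := hi
  rw [mem_filter]
  exact ⟨mem_univ _, p.2, hz p hp⟩

theorem same_card {N q : ℕ} [Fact q.Prime] {j j' : Fin N} (hj : j ≠ j') :
    ((univ : Finset (Asg N q)).filter fun y => (y j).1 = (y j').1).card * q ≤ q ^ (2 * N) := by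
  have hc : ((univ : Finset (Asg N q)).filter fun y => (y j).1 = (y j').1).card * q =
      (((univ : Finset (Asg N q)).filter fun y => (y j).1 = (y j').1) ×ˢ
        (univ : Finset (ZMod q))).card := by
    rw [card_product, card_univ (α := ZMod q), ZMod.card]
  rw [hc, ← card_asg (N := N) (q := q)]
  refine card_le_card_of_injOn (fun p => Function.update p.1 j (p.2, (p.1 j).2))
    (fun _ _ => mem_coe.mpr (mem_univ _)) ?_
  rintro ⟨y, a⟩ hy ⟨y', a'⟩ hy' h
  rw [mem_coe, mem_product, mem_filter] at hy hy'
  have hy1 : (y j).1 = (y j').1 := hy.1.2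
  have hy2 : (y' j).1 = (y' j').1 := hy'.1.2
  have h' : Function.update y j (a, (y j).2) = Function.update y' j (a', (y' j).2) := h
  have h1 : (a, (y j).2) = (a', (y' j).2) := by
    have := congrFun h' j
    rwa [Function.update_self, Function.update_self] at this
  have h2 : ∀ i, i ≠ j → y i = y' i := by
    intro i hi
    have := congrFun h' i
    rwa [Function.update_of_ne hi, Function.update_of_ne hi] at this
  have h3 : y = y' := by
    funext i
    by_cases hi : i = j
    · subst hi
      refine Prod.ext ?_ (Prod.ext_iff.mp h1).2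
      rw [hy1, hy2, h2 j' (Ne.symm hj)]
    · exact h2 i hi
  have h4 : a = a' := (Prod.ext_iff.mp h1).1
  rw [h3, h4]

theorem lt_pairs {N : ℕ} :
    2 * ((univ : Finset (Pair N)).filter fun p => p.1 < p.2).card ≤ N ^ 2 := by
  have h1 : ((univ : Finset (Pair N)).filter fun p => p.1 < p.2).card =
      ((univ : Finset (Pair N)).filter fun p => p.2 < p.1).card := by
    refine card_bij (fun p _ => (p.2, p.1)) ?_ ?_ ?_
    · intro p hp
      rw [mem_filter] at hp ⊢
      exact ⟨mem_univ _, hp.2⟩
    · intro p _ p' _ h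
      exact Prod.ext (Prod.ext_iff.mp h).2 (Prod.ext_iff.mp h).1
    · intro p hp
      rw [mem_filter] at hp
      exact ⟨(p.2, p.1), by rw [mem_filter]; exact ⟨mem_univ _, hp.2⟩, rfl⟩
  have h2 : Disjoint ((univ : Finset (Pair N)).filter fun p => p.1 < p.2)
      ((univ : Finset (Pair N)).filter fun p => p.2 < p.1) := by
    rw [disjoint_filter]
    intro p _ h h'
    exact absurd h (not_lt.mpr h'.le)
  have h3 := card_le_univ (((univ : Finset (Pair N)).filter fun p => p.1 < p.2) ∪
      ((univ : Finset (Pair N)).filter fun p => p.2 < p.1))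
  rw [card_union_of_disjoint h2, ← h1, Fintype.card_prod, Fintype.card_fin] at h3
  rw [sq]
  omega

/-- the sequences of points with two points of the same abscissa are few -/
theorem gen_card {N q : ℕ} [Fact q.Prime] (hq : N ^ 2 ≤ q) :
    q ^ (2 * N) ≤ 2 * ((univ : Finset (Asg N q)).filter fun y => Gen y).card := by
  have hq0 : 0 < q := (Fact.out : q.Prime).pos
  have h1 : ((univ : Finset (Asg N q)).filter fun y => ¬ Gen y).card ≤
      ∑ p ∈ (univ : Finset (Pair N)).filter fun p => p.1 < p.2,
        ((univ : Finset (Asg N q)).filter fun y => (y p.1).1 = (y p.2).1).card := by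
    refine le_trans (card_le_card ?_) card_biUnion_le
    intro y hy
    rw [mem_filter] at hy
    have h2 : ∃ j j' : Fin N, (y j).1 = (y j').1 ∧ j ≠ j' := by
      have := hy.2
      unfold Gen at this
      push Not at this
      exact this
    obtain ⟨j, j', h3, h4⟩ := h2
    rw [mem_biUnion]
    rcases lt_or_gt_of_ne h4 with h5 | h5
    · exact ⟨(j, j'), by rw [mem_filter]; exact ⟨mem_univ _, h5⟩, by
        rw [mem_filter]; exact ⟨mem_univ _, h3⟩⟩
    · exact ⟨(j', j), by rw [mem_filter]; exact ⟨mem_univ _, h5⟩, by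
        rw [mem_filter]; exact ⟨mem_univ _, h3.symm⟩⟩
  have h2 : 2 * ((univ : Finset (Asg N q)).filter fun y => ¬ Gen y).card * q ≤
      q ^ (2 * N) * q := by
    calc 2 * ((univ : Finset (Asg N q)).filter fun y => ¬ Gen y).card * q
        ≤ 2 * (∑ p ∈ (univ : Finset (Pair N)).filter fun p => p.1 < p.2,
          ((univ : Finset (Asg N q)).filter fun y => (y p.1).1 = (y p.2).1).card) * q :=
          Nat.mul_le_mul_right _ (Nat.mul_le_mul_left _ h1)
      _ = 2 * ∑ p ∈ (univ : Finset (Pair N)).filter fun p => p.1 < p.2,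
          ((univ : Finset (Asg N q)).filter fun y => (y p.1).1 = (y p.2).1).card * q := by
          rw [mul_assoc, sum_mul]
      _ ≤ 2 * ∑ p ∈ (univ : Finset (Pair N)).filter fun p => p.1 < p.2, q ^ (2 * N) := by
          refine Nat.mul_le_mul_left _ (sum_le_sum fun p hp => ?_)
          rw [mem_filter] at hp
          exact same_card (ne_of_lt hp.2)
      _ = 2 * ((univ : Finset (Pair N)).filter fun p => p.1 < p.2).card * q ^ (2 * N) := by
          rw [sum_const, smul_eq_mul]; ring
      _ ≤ N ^ 2 * q ^ (2 * N) := Nat.mul_le_mul_right _ lt_pairs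
      _ ≤ q * q ^ (2 * N) := Nat.mul_le_mul_right _ hq
      _ = q ^ (2 * N) * q := mul_comm _ _
  have h3 := Nat.le_of_mul_le_mul_right h2 hq0
  have h4 := card_filter_add_card_filter_not (s := (univ : Finset (Asg N q))) (fun y => Gen y)
  rw [card_asg] at h4
  omega

/-- **M6b** -/
theorem planted_lower {N q : ℕ} [Fact q.Prime] (hq : N ^ 2 ≤ q) {t : ℕ} {T : Finset (Pair N)}
    (hT : T ∈ Mt (univ : Finset (Fin N)) univ t) :
    q ^ (4 * N) ≤ 2 * q ^ t *
      ((univ : Finset (Inp N q)).filter fun z => IncT T z ∧ Gen z.2).card := by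
  have hx : ∀ y : Asg N q, ((univ : Finset (Asg N q)).filter fun x => IncT T (x, y)).card * q ^ t =
      q ^ (2 * N) := by
    intro y
    rw [← Mt_card' hT, x_card]
    rw [prod_congr rfl fun i _ => cons_card_one y _ (row_matching hT i), prod_const, card_univ,
      Fintype.card_fin, ← pow_mul]
  have h1 : ((univ : Finset (Inp N q)).filter fun z => IncT T z ∧ Gen z.2).card * q ^ t =
      ((univ : Finset (Asg N q)).filter fun y => Gen y).card * q ^ (2 * N) := by
    rw [z_card, sum_mul, ← smul_eq_mul (((univ : Finset (Asg N q)).filter fun y => Gen y).card),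
      ← sum_const, sum_filter]
    refine sum_congr rfl fun y _ => ?_
    by_cases hy : Gen y
    · rw [if_pos hy, ← hx y]
      congr 2
      ext x
      simp [hy]
    · rw [if_neg hy]
      have : ((univ : Finset (Asg N q)).filter fun x => IncT T (x, y) ∧ Gen (x, y).2) = ∅ := by
        ext x
        simp [hy]
      rw [this]
      simp
  calc q ^ (4 * N) = q ^ (2 * N) * q ^ (2 * N) := by rw [← pow_add]; congr 1; ring
    _ ≤ 2 * ((univ : Finset (Asg N q)).filter fun y => Gen y).card * q ^ (2 * N) :=
      Nat.mul_le_mul_right _ (gen_card hq)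
    _ = 2 * q ^ t * ((univ : Finset (Inp N q)).filter fun z => IncT T z ∧ Gen z.2).card := by
      rw [mul_assoc, ← h1]; ring

/-- the inputs satisfying `T` and the additional incidences `(e k, φ k)` -/
def extra {N j : ℕ} (T : Finset (Pair N)) (s : (Fin j → Fin N) × (Fin j → Fin N)) :
    Finset (Pair N) := T ∪ univ.image fun k => (s.1 k, s.2 k)

theorem extra_card {N q t j : ℕ} [Fact q.Prime] {T : Finset (Pair N)}
    (hT : T ∈ Mt (univ : Finset (Fin N)) univ t) (s : (Fin j → Fin N) × (Fin j → Fin N))
    (h1 : Function.Injective s.1) (h2 : ∀ k, (s.1 k, s.2 k) ∉ T) :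
    ((univ : Finset (Inp N q)).filter fun z => IncT (extra T s) z ∧ Gen z.2).card * q ^ (t + j) ≤
      q ^ (4 * N) := by
  have hinj : Function.Injective fun k => (s.1 k, s.2 k) := by
    intro k k' h
    exact h1 (Prod.ext_iff.mp h).1
  have hdisj : Disjoint T (univ.image fun k => (s.1 k, s.2 k)) := by
    rw [disjoint_left]
    intro p hp hp'
    rw [mem_image] at hp'
    obtain ⟨k, -, rfl⟩ := hp'
    exact h2 k hp
  have hcard : (extra T s).card = t + j := by
    unfold extra
    rw [card_union_of_disjoint hdisj, Mt_card' hT, card_image_of_injective _ hinj, card_univ,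
      Fintype.card_fin]
  have hrow : ∀ i, (row (extra T s) i).card ≤ 2 := by
    intro i
    have e1 : row (extra T s) i = row T i ∪ row (univ.image fun k => (s.1 k, s.2 k)) i := by
      unfold row extra
      rw [filter_union]
    rw [e1]
    refine le_trans (card_union_le _ _) ?_
    have e2 : (row (univ.image fun k => (s.1 k, s.2 k)) i).card ≤ 1 := by
      rw [card_le_one]
      intro p hp p' hp'
      unfold row at hp hp'
      rw [mem_filter, mem_image] at hp hp'
      obtain ⟨⟨k, -, rfl⟩, hk⟩ := hp
      obtain ⟨⟨k', -, rfl⟩, hk'⟩ := hp'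
      have : k = k' := h1 (hk.trans hk'.symm)
      rw [this]
    have := row_matching hT i
    omega
  have hrinj : ∀ i, ∀ p ∈ row (extra T s) i, ∀ p' ∈ row (extra T s) i, p.2 = p'.2 → p = p' := by
    intro i p hp p' hp' h
    unfold row at hp hp'
    rw [mem_filter] at hp hp'
    exact Prod.ext (hp.2.trans hp'.2.symm) h
  rw [z_card, sum_mul]
  have h3 : ∀ y ∈ (univ : Finset (Asg N q)),
      ((univ : Finset (Asg N q)).filter fun x => IncT (extra T s) (x, y) ∧ Gen (x, y).2).card *
        q ^ (t + j) ≤ q ^ (2 * N) := by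
    intro y _
    by_cases hy : Gen y
    · rw [← hcard]
      refine le_trans (Nat.mul_le_mul_right _ (card_le_card ?_)) (x_card_le y (extra T s)
        fun i => cons_card_two y _ (hrow i) hy (hrinj i))
      intro x hx
      rw [mem_filter] at hx ⊢
      exact ⟨hx.1, hx.2.1⟩
    · have : ((univ : Finset (Asg N q)).filter fun x =>
          IncT (extra T s) (x, y) ∧ Gen (x, y).2) = ∅ := by
        rw [filter_eq_empty_iff]
        rintro x _ ⟨_, h⟩
        exact hy h
      rw [this]
      simp
  refine le_trans (sum_le_sum h3) ?_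
  rw [sum_const, card_asg, smul_eq_mul, ← pow_add]
  exact le_of_eq (by congr 1; ring)

theorem bad_count_one {N q t j : ℕ} [Fact q.Prime] {T : Finset (Pair N)}
    (hT : T ∈ Mt (univ : Finset (Fin N)) univ t) :
    ((univ : Finset (Inp N q)).filter fun z =>
        IncT T z ∧ Gen z.2 ∧ j ≤ (bad T z).card).card * q ^ (t + j) ≤
      N ^ (2 * j) * q ^ (4 * N) := by
  obtain ⟨A, hA⟩ : ∃ A : Finset ((Fin j → Fin N) × (Fin j → Fin N)), A =
    univ.filter fun s => Function.Injective s.1 ∧ ∀ k, (s.1 k, s.2 k) ∉ T := ⟨_, rfl⟩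
  have h1 : ((univ : Finset (Inp N q)).filter fun z =>
        IncT T z ∧ Gen z.2 ∧ j ≤ (bad T z).card).card ≤
      ∑ s ∈ A, ((univ : Finset (Inp N q)).filter fun z => IncT (extra T s) z ∧ Gen z.2).card := by
    refine le_trans (card_le_card ?_) card_biUnion_le
    intro z hz
    rw [mem_filter] at hz
    obtain ⟨-, hz1, hz2, hz3⟩ := hz
    obtain ⟨J, hJ1, hJ2⟩ := exists_subset_card_eq hz3
    have hφ : ∀ k : Fin j, ∃ l : Fin N, (J.orderEmbOfFin hJ2 k, l) ∉ T ∧
        inc (z.1 (J.orderEmbOfFin hJ2 k)) (z.2 l) := by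
      intro k
      have := hJ1 (J.orderEmbOfFin_mem hJ2 k)
      unfold bad at this
      rw [mem_filter] at this
      exact this.2
    choose φ hφ using hφ
    rw [mem_biUnion]
    refine ⟨(fun k => J.orderEmbOfFin hJ2 k, φ), ?_, ?_⟩
    · rw [hA, mem_filter]
      exact ⟨mem_univ _, (J.orderEmbOfFin hJ2).injective, fun k => (hφ k).1⟩
    · rw [mem_filter]
      refine ⟨mem_univ _, ?_, hz2⟩
      intro p hp
      unfold extra at hp
      rw [mem_union, mem_image] at hp
      rcases hp with hp | ⟨k, -, rfl⟩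
      · exact hz1 p hp
      · exact (hφ k).2
  refine le_trans (Nat.mul_le_mul_right _ h1) ?_
  rw [sum_mul]
  have h2 : ∀ s ∈ A, ((univ : Finset (Inp N q)).filter fun z =>
      IncT (extra T s) z ∧ Gen z.2).card * q ^ (t + j) ≤ q ^ (4 * N) := by
    intro s hs
    rw [hA, mem_filter] at hs
    exact extra_card hT s hs.2.1 hs.2.2
  refine le_trans (sum_le_sum h2) ?_
  rw [sum_const, smul_eq_mul]
  refine Nat.mul_le_mul_right _ (le_trans (card_le_univ A) ?_)
  rw [Fintype.card_prod, Fintype.card_fun, Fintype.card_fin, Fintype.card_fin, two_mul, pow_add]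

/-- **M6a** -/
theorem bad_count {N q : ℕ} [Fact q.Prime] (t j : ℕ) :
    (∑ T ∈ Mt (univ : Finset (Fin N)) univ t,
      ((univ : Finset (Inp N q)).filter fun z =>
        IncT T z ∧ Gen z.2 ∧ j ≤ (bad T z).card).card) * q ^ (t + j) ≤
      N ^ (2 * j) * (Mt (univ : Finset (Fin N)) univ t).card * q ^ (4 * N) := by
  rw [sum_mul]
  refine le_trans (sum_le_sum fun T hT => bad_count_one hT) ?_
  rw [sum_const, smul_eq_mul]
  exact le_of_eq (by ring)

end

end Pool.Agent.helper80.BP
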