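import Pool.Agent.helper24.BP.Model

/-!
# Module M7a: comparing the planted matchings of weight `j` with those of size `t - j + g`
-/

namespace Pool.Agent.helper80.BP

open Finset Classical
open Pool.Agent.helper24.BP

noncomputable section

theorem mem_Mt {N : ℕ} {X Y : Finset (Fin N)} {s : ℕ} {T : Finset (Pair N)} :
    T ∈ Mt X Y s ↔ (∀ p ∈ T, p.1 ∈ X ∧ p.2 ∈ Y) ∧ T.card = s ∧
      (∀ p ∈ T, ∀ p' ∈ T, p.1 = p'.1 → p = p') ∧ (∀ p ∈ T, ∀ p' ∈ T, p.2 = p'.2 → p = p') := by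
  unfold Mt
  rw [mem_filter, mem_powersetCard]
  constructor
  · rintro ⟨⟨h1, h2⟩, h3, h4⟩
    exact ⟨fun p hp => mem_product.mp (h1 hp), h2, h3, h4⟩
  · rintro ⟨h1, h2, h3, h4⟩
    exact ⟨⟨fun p hp => mem_product.mpr (h1 p hp), h2⟩, h3, h4⟩

/-- the pairs of `T` not inside `FU × FV` -/
def Tf {N : ℕ} (FU FV : Finset (Fin N)) (T : Finset (Pair N)) : Finset (Pair N) :=
  T.filter fun p => p.1 ∉ FU ∨ p.2 ∉ FV

/-- the pairs of `T` inside `FU × FV` -/
def Ta {N : ℕ} (FU FV : Finset (Fin N)) (T : Finset (Pair N)) : Finset (Pair N) :=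
  T.filter fun p => ¬ (p.1 ∉ FU ∨ p.2 ∉ FV)

theorem Ta_union_Tf {N : ℕ} (FU FV : Finset (Fin N)) (T : Finset (Pair N)) :
    Ta FU FV T ∪ Tf FU FV T = T := by
  unfold Ta Tf
  rw [union_comm]
  exact filter_union_filter_not_eq _ _

theorem IncT_const {N q : ℕ} {FU FV : Finset (Fin N)} {a b : Finset (Asg N q)}
    (ha : ∀ x ∈ a, ∀ x' ∈ a, ∀ i ∈ FU, x i = x' i) (hb : ∀ x ∈ b, ∀ x' ∈ b, ∀ i ∈ FV, x i = x' i)
    {A : Finset (Pair N)} (hA : ∀ p ∈ A, p.1 ∈ FU ∧ p.2 ∈ FV) {z z' : Inp N q}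
    (hz : z ∈ a ×ˢ b) (hz' : z' ∈ a ×ˢ b) (h : IncT A z) : IncT A z' := by
  intro p hp
  rw [mem_product] at hz hz'
  have h1 := ha _ hz.1 _ hz'.1 p.1 (hA p hp).1
  have h2 := hb _ hz.2 _ hz'.2 p.2 (hA p hp).2
  rw [← h1, ← h2]
  exact h p hp

/-- **M7a**, from M2 and M3 -/
theorem part_ineq_of {N q : ℕ} [Fact q.Prime] {ξ g : ℕ} {FU FV : Finset (Fin N)}
    {a b : Finset (Asg N q)} (ha : Dense ξ FU a) (hb : Dense ξ FV b)
    (lower : ∀ R ∈ Mt FUᶜ FVᶜ g,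
      a.card * b.card ≤ 2 * q ^ g * ((a ×ˢ b).filter (IncT R)).card)
    (upper : ∀ s : ℕ, ∀ T ∈ Mt (univ : Finset (Fin N)) univ s,
      (∀ p ∈ T, p.1 ∉ FU ∨ p.2 ∉ FV) →
      ((a ×ˢ b).filter (IncT T)).card * q ^ s ≤ ξ ^ s * (a.card * b.card)) (t j : ℕ) :
    (∑ T ∈ (Mt (univ : Finset (Fin N)) univ t).filter (fun T =>
        (T.filter fun p => p.1 ∉ FU ∨ p.2 ∉ FV).card = j),
      ((a ×ˢ b).filter (IncT T)).card) * (Mt FUᶜ FVᶜ g).card * q ^ j ≤
    2 * q ^ g * ξ ^ j * (Mt (univ : Finset (Fin N)) univ j).card *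
      ∑ T ∈ Mt (univ : Finset (Fin N)) univ (t - j + g), ((a ×ˢ b).filter (IncT T)).card := by
  obtain ⟨𝒯, h𝒯⟩ : ∃ 𝒯, 𝒯 = (Mt (univ : Finset (Fin N)) univ t).filter (fun T =>
        (T.filter fun p => p.1 ∉ FU ∨ p.2 ∉ FV).card = j) := ⟨_, rfl⟩
  obtain ⟨𝒜, h𝒜⟩ : ∃ 𝒜, 𝒜 = (Mt FU FV (t - j)).filter (fun A => ∃ z ∈ a ×ˢ b, IncT A z) :=
    ⟨_, rfl⟩
  rw [← h𝒯]
  -- step 1
  have h1 : (∑ T ∈ 𝒯, ((a ×ˢ b).filter (IncT T)).card) * q ^ j ≤
      ξ ^ j * (a.card * b.card) * (𝒜.card * (Mt (univ : Finset (Fin N)) univ j).card) := by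
    have hTa : ∀ T ∈ 𝒯, (∃ z ∈ a ×ˢ b, IncT T z) → Ta FU FV T ∈ 𝒜 := by
      rintro T hT ⟨z, hz, hTz⟩
      rw [h𝒯, mem_filter, mem_Mt] at hT
      obtain ⟨⟨-, hc, hi1, hi2⟩, hj⟩ := hT
      rw [h𝒜, mem_filter, mem_Mt]
      refine ⟨⟨?_, ?_, ?_, ?_⟩, z, hz, ?_⟩
      · intro p hp
        unfold Ta at hp
        rw [mem_filter] at hp
        push Not at hp
        exact hp.2
      · have h2 := card_filter_add_card_filter_not (s := T) (fun p => p.1 ∉ FU ∨ p.2 ∉ FV)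
        unfold Ta
        rw [hj, hc] at h2
        omega
      · intro p hp p' hp'
        exact hi1 p (mem_of_mem_filter _ hp) p' (mem_of_mem_filter _ hp')
      · intro p hp p' hp'
        exact hi2 p (mem_of_mem_filter _ hp) p' (mem_of_mem_filter _ hp')
      · intro p hp
        exact hTz p (mem_of_mem_filter _ hp)
    have hTf : ∀ T ∈ 𝒯, Tf FU FV T ∈ Mt (univ : Finset (Fin N)) univ j := by
      intro T hT
      rw [h𝒯, mem_filter, mem_Mt] at hT
      obtain ⟨⟨-, hc, hi1, hi2⟩, hj⟩ := hT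
      rw [mem_Mt]
      refine ⟨fun p _ => ⟨mem_univ _, mem_univ _⟩, hj, ?_, ?_⟩
      · intro p hp p' hp'
        exact hi1 p (mem_of_mem_filter _ hp) p' (mem_of_mem_filter _ hp')
      · intro p hp p' hp'
        exact hi2 p (mem_of_mem_filter _ hp) p' (mem_of_mem_filter _ hp')
    have hf : ∀ T ∈ 𝒯, ((a ×ˢ b).filter (IncT T)).card * q ^ j ≤
        if Ta FU FV T ∈ 𝒜 then ξ ^ j * (a.card * b.card) else 0 := by
      intro T hT
      split_ifs with h
      · refine le_trans (Nat.mul_le_mul_right _ (card_le_card ?_))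
          (upper j (Tf FU FV T) (hTf T hT) ?_)
        · intro z hz
          rw [mem_filter] at hz ⊢
          exact ⟨hz.1, fun p hp => hz.2 p (mem_of_mem_filter _ hp)⟩
        · intro p hp
          unfold Tf at hp
          rw [mem_filter] at hp
          exact hp.2
      · have : (a ×ˢ b).filter (IncT T) = ∅ := by
          rw [filter_eq_empty_iff]
          intro z hz hTz
          exact h (hTa T hT ⟨z, hz, hTz⟩)
        rw [this]
        simp
    rw [sum_mul]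
    refine le_trans (sum_le_sum hf) ?_
    rw [← sum_filter, sum_const, smul_eq_mul, mul_comm]
    refine Nat.mul_le_mul_left _ ?_
    rw [← card_product]
    refine card_le_card_of_injOn (fun T => (Ta FU FV T, Tf FU FV T)) ?_ ?_
    · intro T hT
      rw [mem_coe, mem_filter] at hT
      rw [mem_coe, mem_product]
      exact ⟨hT.2, hTf T hT.1⟩
    · intro T _ T' _ h
      have h3 : Ta FU FV T = Ta FU FV T' := (Prod.ext_iff.mp h).1
      have h4 : Tf FU FV T = Tf FU FV T' := (Prod.ext_iff.mp h).2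
      rw [← Ta_union_Tf FU FV T, h3, h4, Ta_union_Tf]
  -- step 2
  have h2 : (a.card * b.card) * (𝒜.card * (Mt FUᶜ FVᶜ g).card) ≤ 2 * q ^ g *
      ∑ T ∈ Mt (univ : Finset (Fin N)) univ (t - j + g), ((a ×ˢ b).filter (IncT T)).card := by
    have hinj : Set.InjOn (fun s : Finset (Pair N) × Finset (Pair N) => s.1 ∪ s.2)
        (𝒜 ×ˢ Mt FUᶜ FVᶜ g : Finset _) := by
      rintro ⟨A, R⟩ hs ⟨A', R'⟩ hs' h
      rw [mem_coe, mem_product, h𝒜, mem_filter, mem_Mt, mem_Mt] at hs hs'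
      have hA : ∀ p ∈ A, p.1 ∈ FU ∧ p.2 ∈ FV := hs.1.1.1
      have hR : ∀ p ∈ R, p.1 ∈ FUᶜ ∧ p.2 ∈ FVᶜ := hs.2.1
      have hA' : ∀ p ∈ A', p.1 ∈ FU ∧ p.2 ∈ FV := hs'.1.1.1
      have hR' : ∀ p ∈ R', p.1 ∈ FUᶜ ∧ p.2 ∈ FVᶜ := hs'.2.1
      have h' : A ∪ R = A' ∪ R' := h
      have e1 : ∀ {A R : Finset (Pair N)}, (∀ p ∈ A, p.1 ∈ FU ∧ p.2 ∈ FV) →
          (∀ p ∈ R, p.1 ∈ FUᶜ ∧ p.2 ∈ FVᶜ) → A = (A ∪ R).filter (fun p => p.1 ∈ FU) := by
        intro A R hA hR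
        ext p
        rw [mem_filter, mem_union]
        constructor
        · intro hp
          exact ⟨Or.inl hp, (hA p hp).1⟩
        · rintro ⟨hp | hp, h3⟩
          · exact hp
          · exact absurd h3 (mem_compl.mp (hR p hp).1)
      have e2 : ∀ {A R : Finset (Pair N)}, (∀ p ∈ A, p.1 ∈ FU ∧ p.2 ∈ FV) →
          (∀ p ∈ R, p.1 ∈ FUᶜ ∧ p.2 ∈ FVᶜ) → R = (A ∪ R).filter (fun p => p.1 ∉ FU) := by
        intro A R hA hR
        ext p
        rw [mem_filter, mem_union]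
        constructor
        · intro hp
          exact ⟨Or.inr hp, mem_compl.mp (hR p hp).1⟩
        · rintro ⟨hp | hp, h3⟩
          · exact absurd (hA p hp).1 h3
          · exact hp
      refine Prod.ext ?_ ?_
      · show A = A'
        refine (e1 hA hR).trans ?_
        rw [h']
        exact (e1 hA' hR').symm
      · show R = R'
        refine (e2 hA hR).trans ?_
        rw [h']
        exact (e2 hA' hR').symm
    have hmem : ∀ s ∈ 𝒜 ×ˢ Mt FUᶜ FVᶜ g, s.1 ∪ s.2 ∈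
        Mt (univ : Finset (Fin N)) univ (t - j + g) := by
      rintro ⟨A, R⟩ hs
      rw [mem_product, h𝒜, mem_filter, mem_Mt, mem_Mt] at hs
      obtain ⟨⟨⟨hA1, hA2, hA3, hA4⟩, -⟩, hR1, hR2, hR3, hR4⟩ := hs
      rw [mem_Mt]
      refine ⟨fun p _ => ⟨mem_univ _, mem_univ _⟩, ?_, ?_, ?_⟩
      · rw [card_union_of_disjoint, hA2, hR2]
        rw [disjoint_left]
        intro p hp hp'
        exact (mem_compl.mp (hR1 p hp').1) (hA1 p hp).1
      · intro p hp p' hp' h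
        rw [mem_union] at hp hp'
        rcases hp with hp | hp <;> rcases hp' with hp' | hp'
        · exact hA3 p hp p' hp' h
        · exact absurd (h ▸ (hA1 p hp).1) (mem_compl.mp (hR1 p' hp').1)
        · exact absurd (h ▸ (hA1 p' hp').1) (mem_compl.mp (hR1 p hp).1)
        · exact hR3 p hp p' hp' h
      · intro p hp p' hp' h
        rw [mem_union] at hp hp'
        rcases hp with hp | hp <;> rcases hp' with hp' | hp'
        · exact hA4 p hp p' hp' h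
        · exact absurd (h ▸ (hA1 p hp).2) (mem_compl.mp (hR1 p' hp').2)
        · exact absurd (h ▸ (hA1 p' hp').2) (mem_compl.mp (hR1 p hp).2)
        · exact hR4 p hp p' hp' h
    calc (a.card * b.card) * (𝒜.card * (Mt FUᶜ FVᶜ g).card)
        = ∑ s ∈ 𝒜 ×ˢ Mt FUᶜ FVᶜ g, a.card * b.card := by
          rw [sum_const, card_product, smul_eq_mul, mul_comm]
      _ ≤ ∑ s ∈ 𝒜 ×ˢ Mt FUᶜ FVᶜ g, 2 * q ^ g * ((a ×ˢ b).filter (IncT (s.1 ∪ s.2))).card := by
          refine sum_le_sum ?_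
          rintro ⟨A, R⟩ hs
          rw [mem_product, h𝒜, mem_filter] at hs
          obtain ⟨⟨hA, z0, hz0, hAz⟩, hR⟩ := hs
          refine le_trans (lower R hR) (Nat.mul_le_mul_left _ (card_le_card ?_))
          intro z hz
          rw [mem_filter] at hz ⊢
          refine ⟨hz.1, ?_⟩
          intro p hp
          rcases mem_union.mp hp with hp | hp
          · exact IncT_const ha.agree hb.agree (mem_Mt.mp hA).1 hz0 hz.1 hAz p hp
          · exact hz.2 p hp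
      _ = 2 * q ^ g * ∑ s ∈ 𝒜 ×ˢ Mt FUᶜ FVᶜ g, ((a ×ˢ b).filter (IncT (s.1 ∪ s.2))).card := by
          rw [mul_sum]
      _ = 2 * q ^ g * ∑ T ∈ (𝒜 ×ˢ Mt FUᶜ FVᶜ g).image fun s => s.1 ∪ s.2,
          ((a ×ˢ b).filter (IncT T)).card := by
          rw [sum_image hinj]
      _ ≤ _ := by
          refine Nat.mul_le_mul_left _ (sum_le_sum_of_subset ?_)
          intro T hT
          rw [mem_image] at hT
          obtain ⟨s, hs, rfl⟩ := hT
          exact hmem s hs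
  calc (∑ T ∈ 𝒯, ((a ×ˢ b).filter (IncT T)).card) * (Mt FUᶜ FVᶜ g).card * q ^ j
      = (∑ T ∈ 𝒯, ((a ×ˢ b).filter (IncT T)).card) * q ^ j * (Mt FUᶜ FVᶜ g).card := by ring
    _ ≤ ξ ^ j * (a.card * b.card) * (𝒜.card * (Mt (univ : Finset (Fin N)) univ j).card) *
        (Mt FUᶜ FVᶜ g).card := Nat.mul_le_mul_right _ h1
    _ = ξ ^ j * (Mt (univ : Finset (Fin N)) univ j).card *
        ((a.card * b.card) * (𝒜.card * (Mt FUᶜ FVᶜ g).card)) := by ring
    _ ≤ ξ ^ j * (Mt (univ : Finset (Fin N)) univ j).card * (2 * q ^ g *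
      ∑ T ∈ Mt (univ : Finset (Fin N)) univ (t - j + g), ((a ×ˢ b).filter (IncT T)).card) :=
        Nat.mul_le_mul_left _ h2
    _ = _ := by ring

end

end Pool.Agent.helper80.BP
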