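import Pool.Agent.helper24.BP.Model

/-!
# Module M9a: the bound for a family of disjoint dense rectangles inside `Yes`
-/

namespace Pool.Agent.helper80.BP

open Finset Classical
open Pool.Agent.helper24.BP

noncomputable section

/-- the number of pairs of `T` which are not inside `FU × FV` -/
def Wt {N : ℕ} (FU FV : Finset (Fin N)) (T : Finset (Pair N)) : ℕ :=
  (T.filter fun p => p.1 ∉ FU ∨ p.2 ∉ FV).card

/-- the planted inputs of the `i`-th rectangle -/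
def fz {N q : ℕ} [Fact q.Prime] {ι : Type} (a b : ι → Finset (Asg N q)) (i : ι)
    (T : Finset (Pair N)) : Finset (Inp N q) :=
  (a i ×ˢ b i).filter fun z => IncT T z ∧ Gen z.2

/-- the planted inputs with weight `j` -/
def Aj {N q : ℕ} [Fact q.Prime] {ι : Type} [Fintype ι] (a b : ι → Finset (Asg N q))
    (FU FV : ι → Finset (Fin N)) (t j : ℕ) : ℕ :=
  ∑ i, ∑ T ∈ (Mt (univ : Finset (Fin N)) univ t).filter (fun T => Wt (FU i) (FV i) T = j),
    (fz a b i T).card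

theorem Mt_card {N : ℕ} {X Y : Finset (Fin N)} {s : ℕ} {T : Finset (Pair N)}
    (hT : T ∈ Mt X Y s) : T.card = s := by
  unfold Mt at hT
  rw [mem_filter, mem_powersetCard] at hT
  exact hT.1.2

theorem sum_le_Aj {N q : ℕ} [Fact q.Prime] {ι : Type} [Fintype ι]
    (a b : ι → Finset (Asg N q)) (FU FV : ι → Finset (Fin N)) (t : ℕ) :
    (∑ T ∈ Mt (univ : Finset (Fin N)) univ t,
      ((univ : Finset (Inp N q)).filter fun z =>
        IncT T z ∧ Gen z.2 ∧ ∃ i, z ∈ a i ×ˢ b i).card) ≤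
      ∑ j ∈ range (t + 1), Aj a b FU FV t j := by
  have h1 : ∀ T ∈ Mt (univ : Finset (Fin N)) univ t,
      ((univ : Finset (Inp N q)).filter fun z =>
        IncT T z ∧ Gen z.2 ∧ ∃ i, z ∈ a i ×ˢ b i).card ≤ ∑ i, (fz a b i T).card := by
    intro T _
    refine le_trans (card_le_card ?_) (card_biUnion_le (s := univ) (t := fun i => fz a b i T))
    intro z hz
    rw [mem_filter] at hz
    obtain ⟨-, h1, h2, i, hi⟩ := hz
    rw [mem_biUnion]
    exact ⟨i, mem_univ _, by unfold fz; rw [mem_filter]; exact ⟨hi, h1, h2⟩⟩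
  refine le_trans (sum_le_sum h1) ?_
  rw [sum_comm]
  unfold Aj
  rw [sum_comm (s := range (t + 1))]
  refine sum_le_sum fun i _ => le_of_eq ?_
  rw [sum_fiberwise_of_maps_to]
  intro T hT
  rw [mem_range, Nat.lt_succ_iff, ← Mt_card hT]
  exact card_filter_le _ _

theorem disj_sum_le {N q : ℕ} {ι : Type} (s : Finset ι)
    (P : ι → Finset (Inp N q)) (hdisj : ∀ i j, i ≠ j → Disjoint (P i) (P j))
    (p : Inp N q → Prop) [DecidablePred p] (U : Finset (Inp N q)) (hU : ∀ i ∈ s, ∀ z ∈ P i, p z → z ∈ U) :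
    ∑ i ∈ s, ((P i).filter p).card ≤ U.card := by
  rw [← card_biUnion]
  · refine card_le_card ?_
    intro z hz
    rw [mem_biUnion] at hz
    obtain ⟨i, hi, hz⟩ := hz
    rw [mem_filter] at hz
    exact hU i hi z hz.1 hz.2
  · intro i _ j _ hij
    exact disjoint_filter_filter (hdisj i j hij)

theorem Aj_le_bad {N q : ℕ} [Fact q.Prime] {ι : Type} [Fintype ι]
    (a b : ι → Finset (Asg N q)) (FU FV : ι → Finset (Fin N)) (t j : ℕ)
    (hdisj : ∀ i j, i ≠ j → Disjoint (a i ×ˢ b i) (a j ×ˢ b j))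
    (hbad : ∀ i, ∀ T ∈ Mt (univ : Finset (Fin N)) univ t, ∀ z ∈ a i ×ˢ b i,
      Wt (FU i) (FV i) T ≤ (bad T z).card) :
    Aj a b FU FV t j ≤ ∑ T ∈ Mt (univ : Finset (Fin N)) univ t,
      ((univ : Finset (Inp N q)).filter fun z =>
        IncT T z ∧ Gen z.2 ∧ j ≤ (bad T z).card).card := by
  unfold Aj
  simp_rw [sum_filter]
  rw [sum_comm]
  refine sum_le_sum fun T hT => ?_
  rw [← sum_filter]
  unfold fz
  refine disj_sum_le _ (fun i => a i ×ˢ b i) hdisj _ _ ?_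
  intro i hi z hz hp
  rw [mem_filter] at hi ⊢
  have := hbad i T hT z hz
  rw [hi.2] at this
  exact ⟨mem_univ _, hp.1, hp.2, this⟩

theorem Mt_pos {N : ℕ} (X Y : Finset (Fin N))
    (succ : ∀ s : ℕ, (s + 1) * (Mt X Y (s + 1)).card =
      (Mt X Y s).card * ((X.card - s) * (Y.card - s))) :
    ∀ s : ℕ, s ≤ X.card → s ≤ Y.card → 0 < (Mt X Y s).card := by
  intro s
  induction s with
  | zero =>
    intro _ _
    rw [card_pos]
    refine ⟨∅, ?_⟩
    unfold Mt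
    rw [mem_filter, mem_powersetCard]
    simp
  | succ s ih =>
    intro h1 h2
    have h3 := ih (by omega) (by omega)
    have h4 := succ s
    have h5 : 0 < (Mt X Y s).card * ((X.card - s) * (Y.card - s)) :=
      Nat.mul_pos h3 (Nat.mul_pos (by omega) (by omega))
    rw [← h4] at h5
    exact Nat.pos_of_mul_pos_left h5

/-- the bound for the weight `j ≤ g` -/
theorem Aj_small {N q : ℕ} [Fact q.Prime] {t g n1 : ℕ} {ι : Type} [Fintype ι]
    (a b : ι → Finset (Asg N q)) (FU FV : ι → Finset (Fin N))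
    (hFU : ∀ i, (FU i).card + n1 ≤ N) (hFV : ∀ i, (FV i).card + n1 ≤ N)
    (hdisj : ∀ i j, i ≠ j → Disjoint (a i ×ˢ b i) (a j ×ˢ b j)) (ht : 1 ≤ t) (htN : t ≤ N)
    (hgn : g ≤ n1) (h : 9 * N ^ 2 * g ≤ (n1 - g) ^ 2 * t)
    (succ : ∀ (X Y : Finset (Fin N)) (s : ℕ), (s + 1) * (Mt X Y (s + 1)).card =
      (Mt X Y s).card * ((X.card - s) * (Y.card - s)))
    (ratio : ∀ (X Y : Finset (Fin N)) {n1 t g j : ℕ}, n1 ≤ X.card →
      n1 ≤ Y.card → j ≤ g → j ≤ t → 1 ≤ t → g ≤ n1 →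
      9 * N ^ 2 * g ≤ (n1 - g) ^ 2 * t →
      9 ^ g * ((Mt (univ : Finset (Fin N)) univ j).card *
      (Mt (univ : Finset (Fin N)) univ (t - j + g)).card) ≤
      t ^ j * ((Mt (univ : Finset (Fin N)) univ t).card * (Mt X Y g).card))
    (planted_upper : ∀ {s : ℕ} {T : Finset (Pair N)},
      T ∈ Mt (univ : Finset (Fin N)) univ s →
      ((univ : Finset (Inp N q)).filter (IncT T)).card * q ^ s ≤ q ^ (4 * N))
    (part_ineq : ∀ (i : ι) (t j : ℕ), (∑ T ∈ (Mt (univ : Finset (Fin N)) univ t).filter (fun T =>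
        Wt (FU i) (FV i) T = j),
      ((a i ×ˢ b i).filter (IncT T)).card) * (Mt (FU i)ᶜ (FV i)ᶜ g).card * q ^ j ≤
    2 * q ^ g * N ^ j * (Mt (univ : Finset (Fin N)) univ j).card *
      ∑ T ∈ Mt (univ : Finset (Fin N)) univ (t - j + g), ((a i ×ˢ b i).filter (IncT T)).card)
    {j : ℕ} (hjg : j ≤ g) (hjt : j ≤ t) :
    9 ^ g * (Aj a b FU FV t j * q ^ t) ≤
      2 * N ^ (2 * j) * ((Mt (univ : Finset (Fin N)) univ t).card * q ^ (4 * N)) := by
  have hq0 : 0 < q := (Fact.out : q.Prime).pos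
  obtain ⟨B, hB⟩ : ∃ B : ι → ℕ, B = fun i =>
    (∑ T ∈ (Mt (univ : Finset (Fin N)) univ t).filter (fun T => Wt (FU i) (FV i) T = j),
      ((a i ×ˢ b i).filter (IncT T)).card) := ⟨_, rfl⟩
  obtain ⟨D, hD⟩ : ∃ D : ι → ℕ, D = fun i =>
    (∑ T ∈ (Mt (univ : Finset (Fin N)) univ (t - j + g)),
      ((a i ×ˢ b i).filter (IncT T)).card) := ⟨_, rfl⟩
  have hAB : Aj a b FU FV t j ≤ ∑ i, B i := by
    unfold Aj
    rw [hB]
    refine sum_le_sum fun i _ => sum_le_sum fun T _ => card_le_card ?_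
    intro z hz
    unfold fz at hz
    rw [mem_filter] at hz ⊢
    exact ⟨hz.1, hz.2.1⟩
  refine le_trans (Nat.mul_le_mul_left _ (Nat.mul_le_mul_right _ hAB)) ?_
  have hX : ∀ i, n1 ≤ ((FU i)ᶜ : Finset (Fin N)).card := by
    intro i
    rw [card_compl, Fintype.card_fin]
    have := hFU i
    omega
  have hY : ∀ i, n1 ≤ ((FV i)ᶜ : Finset (Fin N)).card := by
    intro i
    rw [card_compl, Fintype.card_fin]
    have := hFV i
    omega
  have hpos : ∀ i, 0 < (Mt (FU i)ᶜ (FV i)ᶜ g).card := fun i =>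
    Mt_pos _ _ (succ _ _) g (le_trans hgn (hX i)) (le_trans hgn (hY i))
  obtain ⟨μ, hμ⟩ : ∃ μ, μ = (Mt (univ : Finset (Fin N)) univ (t - j + g)).card := ⟨_, rfl⟩
  obtain ⟨ν, hν⟩ : ∃ ν, ν = (Mt (univ : Finset (Fin N)) univ j).card := ⟨_, rfl⟩
  obtain ⟨τ, hτ⟩ : ∃ τ, τ = (Mt (univ : Finset (Fin N)) univ t).card := ⟨_, rfl⟩
  -- the inequality for each rectangle
  have key : ∀ i, 9 ^ g * μ * B i * q ^ j ≤ 2 * q ^ g * N ^ j * t ^ j * τ * D i := by
    intro i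
    have h1 := part_ineq i t j
    have h2 := ratio (FU i)ᶜ (FV i)ᶜ (hX i) (hY i) hjg hjt ht hgn h
    rw [← hμ, ← hν, ← hτ] at h2
    rw [← hν] at h1
    have h1' : B i * (Mt (FU i)ᶜ (FV i)ᶜ g).card * q ^ j ≤ 2 * q ^ g * N ^ j * ν * D i := by
      rw [hB, hD]; exact h1
    have h3 := hpos i
    obtain ⟨x, hx⟩ : ∃ x, x = (Mt (FU i)ᶜ (FV i)ᶜ g).card := ⟨_, rfl⟩
    rw [← hx] at h1' h2 h3
    refine Nat.le_of_mul_le_mul_right ?_ h3
    calc 9 ^ g * μ * B i * q ^ j * x = 9 ^ g * μ * (B i * x * q ^ j) := by ring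
      _ ≤ 9 ^ g * μ * (2 * q ^ g * N ^ j * ν * D i) := Nat.mul_le_mul_left _ h1'
      _ = 2 * q ^ g * N ^ j * D i * (9 ^ g * (ν * μ)) := by ring
      _ ≤ 2 * q ^ g * N ^ j * D i * (t ^ j * (τ * x)) := Nat.mul_le_mul_left _ h2
      _ = 2 * q ^ g * N ^ j * t ^ j * τ * D i * x := by ring
  have hDsum : (∑ i, D i) * q ^ (t - j + g) ≤ μ * q ^ (4 * N) := by
    have h1 : ∑ i, D i ≤ ∑ T ∈ (Mt (univ : Finset (Fin N)) univ (t - j + g)),
        ((univ : Finset (Inp N q)).filter (IncT T)).card := by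
      rw [hD, sum_comm]
      refine sum_le_sum fun T _ => ?_
      refine disj_sum_le _ (fun i => a i ×ˢ b i) hdisj _ _ ?_
      intro i _ z _ hp
      rw [mem_filter]
      exact ⟨mem_univ _, hp⟩
    refine le_trans (Nat.mul_le_mul_right _ h1) ?_
    rw [sum_mul, hμ, ← smul_eq_mul, ← sum_const]
    exact sum_le_sum fun T hT => planted_upper hT
  rcases Nat.eq_zero_or_pos μ with hμ0 | hμ0
  · -- no matchings of size `t - j + g`: all `B i` vanish
    have hB0 : ∀ i, B i = 0 := by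
      intro i
      have h1 := part_ineq i t j
      have h1' : B i * (Mt (FU i)ᶜ (FV i)ᶜ g).card * q ^ j ≤
          2 * q ^ g * N ^ j * (Mt (univ : Finset (Fin N)) univ j).card * D i := by
        rw [hB, hD]; exact h1
      have hD0 : D i = 0 := by
        rw [hD]
        rw [hμ, card_eq_zero] at hμ0
        simp only [hμ0, sum_empty]
      rw [hD0, mul_zero, Nat.le_zero] at h1'
      have h3 := hpos i
      have h4 : 0 < q ^ j := Nat.pow_pos hq0
      rcases Nat.mul_eq_zero.mp h1' with h5 | h5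
      · rcases Nat.mul_eq_zero.mp h5 with h6 | h6
        · exact h6
        · omega
      · omega
    rw [sum_eq_zero fun i _ => hB0 i]
    simp
  · have hsum : 9 ^ g * μ * (∑ i, B i) * q ^ j ≤ 2 * q ^ g * N ^ j * t ^ j * τ * (∑ i, D i) := by
      rw [mul_sum, sum_mul, mul_sum]
      exact sum_le_sum fun i _ => key i
    have hqs : 0 < μ * q ^ g := Nat.mul_pos hμ0 (Nat.pow_pos hq0)
    refine Nat.le_of_mul_le_mul_right ?_ hqs
    have e1 : q ^ t * q ^ g = q ^ j * q ^ (t - j + g) := by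
      rw [← pow_add, ← pow_add]
      congr 1
      omega
    calc 9 ^ g * ((∑ i, B i) * q ^ t) * (μ * q ^ g)
        = 9 ^ g * μ * (∑ i, B i) * (q ^ t * q ^ g) := by ring
      _ = 9 ^ g * μ * (∑ i, B i) * q ^ j * q ^ (t - j + g) := by rw [e1]; ring
      _ ≤ 2 * q ^ g * N ^ j * t ^ j * τ * (∑ i, D i) * q ^ (t - j + g) :=
        Nat.mul_le_mul_right _ hsum
      _ = 2 * q ^ g * N ^ j * t ^ j * τ * ((∑ i, D i) * q ^ (t - j + g)) := by ring
      _ ≤ 2 * q ^ g * N ^ j * t ^ j * τ * (μ * q ^ (4 * N)) := Nat.mul_le_mul_left _ hDsum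
      _ = 2 * N ^ j * t ^ j * (τ * q ^ (4 * N)) * (μ * q ^ g) := by ring
      _ ≤ 2 * N ^ (2 * j) * ((Mt (univ : Finset (Fin N)) univ t).card * q ^ (4 * N)) *
          (μ * q ^ g) := by
        rw [← hτ]
        apply Nat.mul_le_mul_right
        apply Nat.mul_le_mul_right
        rw [two_mul j, pow_add, ← mul_assoc]
        exact Nat.mul_le_mul_left _ (Nat.pow_le_pow_left htN _)

/-- the final bound for each weight -/
theorem Aj_bound {A M N q t g j : ℕ} (hN : 2 ≤ N) (hq : N ^ 8 < q)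
    (b1 : A * q ^ (t + j) ≤ N ^ (2 * j) * M)
    (b2 : j ≤ g → 9 ^ g * (A * q ^ t) ≤ 2 * N ^ (2 * j) * M) :
    3 ^ g * (A * q ^ t) ≤ 2 * M := by
  have hq4 : N ^ 4 ≤ q := le_trans (Nat.pow_le_pow_right (by omega) (by norm_num)) hq.le
  have hq0 : 0 < q := by omega
  have hqj : N ^ (4 * j) ≤ q ^ j := by
    rw [pow_mul]
    exact Nat.pow_le_pow_left hq4 _
  obtain ⟨x, hx⟩ : ∃ x, x = A * q ^ t := ⟨_, rfl⟩
  rw [pow_add, ← mul_assoc] at b1
  rw [← hx] at b1 b2 ⊢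
  have hqj0 : 0 < q ^ j := Nat.pow_pos hq0
  rcases le_or_gt j g with hj | hj
  · have h2 := b2 hj
    have h3 : (3 ^ g * x) ^ 2 * q ^ j ≤ (2 * M) ^ 2 * q ^ j := by
      have h9 : (9 : ℕ) ^ g = 3 ^ g * 3 ^ g := by rw [← mul_pow]; norm_num
      calc (3 ^ g * x) ^ 2 * q ^ j = (9 ^ g * x) * (x * q ^ j) := by rw [h9]; ring
        _ ≤ (2 * N ^ (2 * j) * M) * (N ^ (2 * j) * M) := Nat.mul_le_mul h2 b1
        _ = 2 * M ^ 2 * N ^ (4 * j) := by
            rw [show 4 * j = 2 * j + 2 * j by ring, pow_add]; ring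
        _ ≤ 2 * M ^ 2 * q ^ j := Nat.mul_le_mul_left _ hqj
        _ ≤ (2 * M) ^ 2 * q ^ j := by
            apply Nat.mul_le_mul_right
            nlinarith [sq_nonneg M]
    have h4 := Nat.le_of_mul_le_mul_right h3 hqj0
    exact (Nat.pow_le_pow_iff_left (by norm_num)).mp h4
  · have h3 : 3 ^ g ≤ N ^ (2 * j) := by
      rw [pow_mul]
      calc 3 ^ g ≤ 3 ^ j := Nat.pow_le_pow_right (by norm_num) hj.le
        _ ≤ (N ^ 2) ^ j := Nat.pow_le_pow_left (by nlinarith) _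
    have h4 : (3 ^ g * x) * q ^ j ≤ M * q ^ j := by
      calc (3 ^ g * x) * q ^ j = 3 ^ g * (x * q ^ j) := by ring
        _ ≤ N ^ (2 * j) * (N ^ (2 * j) * M) := Nat.mul_le_mul h3 b1
        _ = M * N ^ (4 * j) := by
            rw [show 4 * j = 2 * j + 2 * j by ring, pow_add]; ring
        _ ≤ M * q ^ j := Nat.mul_le_mul_left _ hqj
    have h5 := Nat.le_of_mul_le_mul_right h4 hqj0
    omega

/-- **M9a**, from M1, M6 and M7 -/
theorem dense_bound_of {N q : ℕ} [Fact q.Prime] {t g n1 : ℕ} {ι : Type} [Fintype ι]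
    (a b : ι → Finset (Asg N q)) (FU FV : ι → Finset (Fin N))
    (hFU : ∀ i, (FU i).card + n1 ≤ N) (hFV : ∀ i, (FV i).card + n1 ≤ N)
    (hdisj : ∀ i j, i ≠ j → Disjoint (a i ×ˢ b i) (a j ×ˢ b j))
    (ht : 1 ≤ t) (htN : t ≤ N) (hN : 2 ≤ N)
    (hq : N ^ 8 < q) (_hg : g ≤ t) (hgn : g ≤ n1) (h : 9 * N ^ 2 * g ≤ (n1 - g) ^ 2 * t)
    (succ : ∀ (X Y : Finset (Fin N)) (s : ℕ), (s + 1) * (Mt X Y (s + 1)).card =
      (Mt X Y s).card * ((X.card - s) * (Y.card - s)))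
    (ratio : ∀ (X Y : Finset (Fin N)) {n1 t g j : ℕ}, n1 ≤ X.card →
      n1 ≤ Y.card → j ≤ g → j ≤ t → 1 ≤ t → g ≤ n1 →
      9 * N ^ 2 * g ≤ (n1 - g) ^ 2 * t →
      9 ^ g * ((Mt (univ : Finset (Fin N)) univ j).card *
      (Mt (univ : Finset (Fin N)) univ (t - j + g)).card) ≤
      t ^ j * ((Mt (univ : Finset (Fin N)) univ t).card * (Mt X Y g).card))
    (planted_upper : ∀ {s : ℕ} {T : Finset (Pair N)},
      T ∈ Mt (univ : Finset (Fin N)) univ s →
      ((univ : Finset (Inp N q)).filter (IncT T)).card * q ^ s ≤ q ^ (4 * N))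
    (bad_count : ∀ t j : ℕ, (∑ T ∈ Mt (univ : Finset (Fin N)) univ t,
      ((univ : Finset (Inp N q)).filter fun z =>
        IncT T z ∧ Gen z.2 ∧ j ≤ (bad T z).card).card) * q ^ (t + j) ≤
      N ^ (2 * j) * (Mt (univ : Finset (Fin N)) univ t).card * q ^ (4 * N))
    (part_ineq : ∀ (i : ι) (t j : ℕ), (∑ T ∈ (Mt (univ : Finset (Fin N)) univ t).filter (fun T =>
        (T.filter fun p => p.1 ∉ FU i ∨ p.2 ∉ FV i).card = j),
      ((a i ×ˢ b i).filter (IncT T)).card) * (Mt (FU i)ᶜ (FV i)ᶜ g).card * q ^ j ≤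
    2 * q ^ g * N ^ j * (Mt (univ : Finset (Fin N)) univ j).card *
      ∑ T ∈ Mt (univ : Finset (Fin N)) univ (t - j + g), ((a i ×ˢ b i).filter (IncT T)).card)
    (hbad : ∀ i, ∀ T ∈ Mt (univ : Finset (Fin N)) univ t, ∀ z ∈ a i ×ˢ b i,
      (T.filter fun p => p.1 ∉ FU i ∨ p.2 ∉ FV i).card ≤ (bad T z).card) :
    3 ^ g * (∑ T ∈ Mt (univ : Finset (Fin N)) univ t,
      ((univ : Finset (Inp N q)).filter fun z =>
        IncT T z ∧ Gen z.2 ∧ ∃ i, z ∈ a i ×ˢ b i).card) * q ^ t ≤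
      2 * (t + 1) * (Mt (univ : Finset (Fin N)) univ t).card * q ^ (4 * N) := by
  have hle := sum_le_Aj a b FU FV t
  obtain ⟨M, hM⟩ : ∃ M, M = (Mt (univ : Finset (Fin N)) univ t).card * q ^ (4 * N) := ⟨_, rfl⟩
  have hAj : ∀ j ∈ range (t + 1), 3 ^ g * (Aj a b FU FV t j * q ^ t) ≤ 2 * M := by
    intro j hj
    rw [mem_range, Nat.lt_succ_iff] at hj
    refine Aj_bound (j := j) hN hq ?_ ?_
    · refine le_trans (Nat.mul_le_mul_right _ (Aj_le_bad a b FU FV t j hdisj hbad)) ?_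
      rw [hM, ← mul_assoc]
      exact bad_count t j
    · intro hjg
      rw [hM]
      exact Aj_small a b FU FV hFU hFV hdisj ht htN hgn h succ ratio planted_upper
        part_ineq hjg hj
  calc 3 ^ g * (∑ T ∈ Mt (univ : Finset (Fin N)) univ t,
      ((univ : Finset (Inp N q)).filter fun z =>
        IncT T z ∧ Gen z.2 ∧ ∃ i, z ∈ a i ×ˢ b i).card) * q ^ t
      ≤ 3 ^ g * (∑ j ∈ range (t + 1), Aj a b FU FV t j) * q ^ t :=
        Nat.mul_le_mul_right _ (Nat.mul_le_mul_left _ hle)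
    _ = ∑ j ∈ range (t + 1), 3 ^ g * (Aj a b FU FV t j * q ^ t) := by
        rw [mul_sum, sum_mul]
        exact sum_congr rfl fun j _ => by ring
    _ ≤ ∑ j ∈ range (t + 1), 2 * M := sum_le_sum hAj
    _ = 2 * (t + 1) * (Mt (univ : Finset (Fin N)) univ t).card * q ^ (4 * N) := by
        rw [sum_const, card_range, smul_eq_mul, hM]; ring

end

end Pool.Agent.helper80.BP
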