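import Pool.Agent.helper12.BP.M1
import Pool.Agent.helper3.BP.M2
import Pool.Agent.helper3.BP.M34
import Pool.Agent.helper80.BP.M6
import Pool.Agent.helper80.BP.M7a
import Pool.Agent.helper80.BP.M9a

/-!
# Modules M7a and M9a in their final form
-/

namespace Pool.Agent.helper80.BP

open Finset Classical
open Pool.Agent.helper24.BP

/-- **M7a** -/
theorem part_ineq {N q : ℕ} [Fact q.Prime] {ξ g : ℕ} {FU FV : Finset (Fin N)}
    {a b : Finset (Asg N q)} (ha : Dense ξ FU a) (hb : Dense ξ FV b)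
    (hq : (4 * g * ξ) ^ 2 ≤ q) (t j : ℕ) :
    (∑ T ∈ (Mt (univ : Finset (Fin N)) univ t).filter (fun T =>
        (T.filter fun p => p.1 ∉ FU ∨ p.2 ∉ FV).card = j),
      ((a ×ˢ b).filter (IncT T)).card) * (Mt FUᶜ FVᶜ g).card * q ^ j ≤
    2 * q ^ g * ξ ^ j * (Mt (univ : Finset (Fin N)) univ j).card *
      ∑ T ∈ Mt (univ : Finset (Fin N)) univ (t - j + g), ((a ×ˢ b).filter (IncT T)).card :=
  part_ineq_of ha hb (fun _ hR => Pool.Agent.helper3.BP.inc_lower ha hb hq hR)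
    (fun _ _ hT hfree => Pool.Agent.helper3.BP.inc_upper ha hb hT hfree) t j

/-- **M9a** -/
theorem dense_bound {N q : ℕ} [Fact q.Prime] {t g n1 : ℕ} {ι : Type} [Fintype ι]
    (a b : ι → Finset (Asg N q)) (FU FV : ι → Finset (Fin N))
    (ha : ∀ i, Dense N (FU i) (a i)) (hb : ∀ i, Dense N (FV i) (b i))
    (hFU : ∀ i, (FU i).card + n1 ≤ N) (hFV : ∀ i, (FV i).card + n1 ≤ N)
    (hdisj : ∀ i j, i ≠ j → Disjoint (a i ×ˢ b i) (a j ×ˢ b j))
    (hyes : ∀ i, ∀ z ∈ a i ×ˢ b i, Yes t z) (ht : 1 ≤ t) (htN : t ≤ N) (hN : 2 ≤ N)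
    (hq : N ^ 8 < q) (hg : g ≤ t) (hgn : g ≤ n1) (h : 9 * N ^ 2 * g ≤ (n1 - g) ^ 2 * t) :
    3 ^ g * (∑ T ∈ Mt (univ : Finset (Fin N)) univ t,
      ((univ : Finset (Inp N q)).filter fun z =>
        IncT T z ∧ Gen z.2 ∧ ∃ i, z ∈ a i ×ˢ b i).card) * q ^ t ≤
      2 * (t + 1) * (Mt (univ : Finset (Fin N)) univ t).card * q ^ (4 * N) := by
  have hq1 : (4 * g * N) ^ 2 ≤ q := by
    have hgN : g ≤ N := le_trans hg htN
    have h1 : 4 * g * N ≤ 4 * N * N := Nat.mul_le_mul_right _ (Nat.mul_le_mul_left _ hgN)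
    have h2 : 4 * N * N ≤ N ^ 4 := by
      have : 4 ≤ N ^ 2 := by nlinarith
      calc 4 * N * N = 4 * N ^ 2 := by ring
        _ ≤ N ^ 2 * N ^ 2 := Nat.mul_le_mul_right _ this
        _ = N ^ 4 := by ring
    calc (4 * g * N) ^ 2 ≤ (N ^ 4) ^ 2 := Nat.pow_le_pow_left (le_trans h1 h2) 2
      _ = N ^ 8 := by ring
      _ ≤ q := hq.le
  have hq2 : N ^ 2 * N < q := by
    refine lt_of_le_of_lt ?_ hq
    calc N ^ 2 * N = N ^ 3 := by ring
      _ ≤ N ^ 8 := Nat.pow_le_pow_right (by omega) (by norm_num)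
  exact dense_bound_of a b FU FV hFU hFV hdisj ht htN hN hq hg hgn h
    (fun X Y s => Pool.Agent.helper12.BP.card_Mt_succ X Y s)
    (fun X Y => fun h1 h2 h3 h4 h5 h6 h7 =>
      Pool.Agent.helper12.BP.mt_ratio X Y h1 h2 h3 h4 h5 h6 h7)
    (fun hT => planted_upper hT) (fun t j => bad_count t j)
    (fun i t j => part_ineq (ha i) (hb i) hq1 t j)
    (fun i _ hT _ hz => Pool.Agent.helper3.BP.bad_of_yes (ha i) (hb i) hq2 (hyes i) hT hz)

end Pool.Agent.helper80.BP
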